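import Pool.Agent.Y506.PV.Fin

/-!
# The KLS conjecture in Cheeger form for projections of sections

Q1, in the form of the inequality for sets `A` of measure one half, for all convex bodies in `ℝⁿ`
which are affine images of bodies `K ⊂ ℝ^m`, `m ≤ n + r`, where `K` is given by few functionals: `K`
is an intersection of at most `m + q` halfspaces or slabs, or `K = {∑_{i < N} φ_i(⟪v_i, x⟫) ≤ 1}`,
`N ≤ m + q`, with functions `φ_i` on the line which are homogeneous of degree `p ≥ 1` (not
necessarily even), or `K` is a central section of codimension at most `q` of a product of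
generalised `ℓ_p` balls, `p ≥ 2`, or of symmetric bodies of dimension at most `B`. The constant
depends on `q, r, B, p` only, the dimensions are arbitrary, and in the first two classes no symmetry
is assumed. By the reduction to measure one half quoted in the problem (Sternberg and Zumbrun) this
is `D_Che(λ_K) ≥ c D_Che^Lin(λ_K)` for these bodies.

Special cases: all polytopes with at most `n + q` facets, and more generally all polytopes of
extension complexity at most `n + q` (theorem `extended`), which contain the polytopes with at most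
`n + q` vertices (theorem `few_vertices`); the sections of codimension `q` of `ℓ_p` balls, `1 ≤ p ≤
∞`; the projections of corank `r` of all these bodies, for instance the symmetric polytopes with at
most `2 (n + q)` vertices (theorem `few_vertices_symmetric`) and the zonotopes with at most `n + q`
generators.

Method. (1) A density `∏ h_i(⟪v_i, x⟫)`, `i < N ≤ m + q`, is after an affine change of variables and
exponential tilts of the factors by a vector orthogonal to the range of `x ↦ (⟪v_i, x⟫)_i` the
section, by a linear subspace `A` of codimension `d ≤ q`, of a product density `ρ` on `ℝ^N` whose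
factors `f_i` have mean zero and variance one. Let `F` be the orthogonal complement of `A`, let
`π_i` be the squared norm of the projection of the `i`-th basis vector to `F`, and let `T_i(·, a)`
be the monotone map of `f_i` to its tilt by `exp (a s)`. New here is the thickening map `(t, λ) ↦
(T_i(t_i, λ_i))`, `t ∈ A`, `λ ∈ F` small. It is injective, the terms of first order in `λ` of its
Jacobian and of the density cancel because `λ` is orthogonal to `t`, its determinant is bounded
below by `∏ κ_i(t_i) ^ π_i`, `κ = min(∫_{-∞}^t f, ∫_t^∞ f) / f(t)`, and it moves a point by at most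
`C (∑ π_i (1 + |s_i|)²)^{1/2}`, which has a bounded expectation under `ρ`. So a set of points of the
section where a Lipschitz function is far from its mean under `ρ` has, with the weight `exp (-Y)`,
`Y = ∑ π_i (1 + |t_i| + (log 1/κ_i)₊)`, a small measure by the Poincare inequality of `ρ`; and the
expectation of `Y` under the section is bounded. With estimates for isotropic log-concave densities
in dimension `d` and `d + 1` (marginals of `ρ`), and approximation, this gives the concentration of
Lipschitz functions on a constant scale, relative to the covariance, for the density and for all its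
linear images. (2) If `Φ` is homogeneous of degree `p` then `exp (-Φ)` is the mixture of the uniform
measures on the dilates of `{Φ ≤ 1}`, and the relative variance of the radial variable is at most `p
/ n`; so the concentration passes to `{Φ ≤ 1}`. For `Powers` and `Blocks` it follows from Poincare
inequalities (see `SectionsOfProducts`, `PowerSums`). (3) The image of the uniform measure on a
convex body under a linear map with kernel of dimension one has a concave density `u` on the image
of the body. By the Prekopa-Leindler inequality the set `{u < ε τ}` has normalised measure at most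
`ε` for a suitable `τ` comparable to the mean of `u`, and fourth moments of linear functionals are
at most a constant times the squares of their variances; so the concentration passes to the uniform
measure on the image. This is iterated `r` times. (E. Milman's theorem on the stability of
isoperimetric constants of log-concave measures under perturbations in total variation could be used
in this step; so for `q = 0` the result follows from known facts about products and `ℓ_p` balls, and
the new case is `q ≥ 1`.) (4) Concentration on a constant scale for all linear images implies the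
isoperimetric inequality for sets of measure one half by a heat flow argument (modules `KH` of the
starting files). The halfspace constant bounds the variances because it forces exponential tails of
the one-dimensional marginals.

The proofs of the lemmas of the modules `RG` are by helpers 849, 901, 401, 252, 950, 864, 429, 210,
445, 809, 487, 287, 510, 333, 497, 592, 65, and of the modules `PV` by helpers 824, 625, 252, 279,
941, 388, 211, 592, 427, 363, 151, 532, 179.
-/

set_option autoImplicit false

namespace Pool.Agent.Results.MP_8d00da_gt.ImagesOfSections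

open MeasureTheory Set
open scoped ENNReal InnerProductSpace

/-- Euclidean space of dimension `n` -/
abbrev Euc (n : ℕ) : Type := EuclideanSpace ℝ (Fin n)

/-- convex body `D = -D`: compact, convex, symmetric, with nonempty interior -/
structure SymmetricBody {k : ℕ} (D : Set (Euc k)) : Prop where
  conv : Convex ℝ D
  comp : IsCompact D
  int : (interior D).Nonempty
  symm : ∀ x ∈ D, -x ∈ D

/-- `a (s₊)^p + b (s₋)^p`, where `a, b ∈ [0, ∞]` and `∞ · 0 = 0` -/
noncomputable def power (p : ℝ) (a b : ℝ≥0∞) (s : ℝ) : ℝ≥0∞ :=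
  a * ENNReal.ofReal (max s 0 ^ p) + b * ENNReal.ofReal (max (-s) 0 ^ p)

/-- `K = {x | ⟪v_i, x⟫ ∈ I_i for all i < N}` with closed intervals `I_i` (which may be unbounded),
`N ≤ m + q`: intersections of `m + q` halfspaces or slabs in `ℝ^m` -/
def Slabs (q : ℕ) {m : ℕ} (K : Set (Euc m)) : Prop :=
  ∃ (N : ℕ) (v : Fin N → Euc m) (I : Fin N → Set ℝ), N ≤ m + q ∧ (∀ i, IsClosed (I i)) ∧
    (∀ i, (I i).OrdConnected) ∧ K = {x | ∀ i, ⟪v i, x⟫_ℝ ∈ I i}

/-- `K = {x | ∑_{i < N} (a_i ⟪v_i, x⟫₊^p + b_i ⟪v_i, x⟫₋^p) ≤ 1}`, `a_i, b_i ∈ [0, ∞]`, `N ≤ m + q` -/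
def Sums (p : ℝ) (q : ℕ) {m : ℕ} (K : Set (Euc m)) : Prop :=
  ∃ (N : ℕ) (v : Fin N → Euc m) (a b : Fin N → ℝ≥0∞), N ≤ m + q ∧
    K = {x | ∑ i, power p (a i) (b i) ⟪v i, x⟫_ℝ ≤ 1}

/-- `K = {x | ∑_{j < k_i} |ℓ_ij(x)|^{e_ij} ≤ 1 for all i < M}`, `e_ij ≥ 2`, `∑ k_i ≤ m + q` -/
def Powers (q : ℕ) {m : ℕ} (K : Set (Euc m)) : Prop :=
  ∃ (M : ℕ) (k : Fin M → ℕ) (e : ∀ i, Fin (k i) → ℝ) (l : ∀ i, Fin (k i) → (Euc m →ₗ[ℝ] ℝ)),
    (∀ i, 1 ≤ k i) ∧ ∑ i, k i ≤ m + q ∧ (∀ i j, 2 ≤ e i j) ∧
    K = {x | ∀ i, ∑ j, |l i j x| ^ e i j ≤ 1}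

/-- `K = {x | Q_i x ∈ D_i for all i < M}` with linear maps `Q_i : ℝ^m → ℝ^{k_i}` and symmetric convex
bodies `D_i`, `k_i ≤ B`, `∑ k_i ≤ m + q` -/
def Blocks (B q : ℕ) {m : ℕ} (K : Set (Euc m)) : Prop :=
  ∃ (M : ℕ) (k : Fin M → ℕ) (Q : ∀ i, Euc m →ₗ[ℝ] Euc (k i)) (D : ∀ i, Set (Euc (k i))),
    (∀ i, k i ≤ B) ∧ ∑ i, k i ≤ m + q ∧ (∀ i, SymmetricBody (D i)) ∧ K = {x | ∀ i, Q i x ∈ D i}

/-- the bodies of which images are taken: bounded, with nonempty interior, and of one of the four
kinds `Slabs`, `Sums`, `Powers`, `Blocks`, with at most `q` functionals more than the dimension -/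
structure Section (B q : ℕ) (p : ℝ) {m : ℕ} (K : Set (Euc m)) : Prop where
  bdd : Bornology.IsBounded K
  int : (interior K).Nonempty
  rep : Slabs q K ∨ Sums p q K ∨ Powers q K ∨ Blocks B q K

/-- Minkowski (exterior) boundary measure `μ⁺(A)` -/
noncomputable def bdry {n : ℕ} (μ : Measure (Euc n)) (A : Set (Euc n)) : ℝ≥0∞ :=
  Filter.liminf (fun ε : ℝ => (μ (Metric.thickening ε A) - μ A) / ENNReal.ofReal ε)
    (nhdsWithin 0 (Set.Ioi 0))

/-- the halfspace `⟪u, x⟫ ≤ b` -/
def halfspace {n : ℕ} (u : Euc n) (b : ℝ) : Set (Euc n) := {x | inner ℝ u x ≤ b}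

/-- the uniform probability measure on `K` -/
noncomputable def unif {n : ℕ} (K : Set (Euc n)) : Measure (Euc n) :=
  (volume K)⁻¹ • volume.restrict K

/-- the inequality of Kannan, Lovasz and Simonovits with constant `c` for the uniform measure `μ` on
`K` and sets of measure one half: if `t min(μ H, 1 - μ H) ≤ μ⁺(H)` for all halfspaces `H` then
`c t min(μ A, 1 - μ A) ≤ μ⁺(A)` for all measurable `A` with `μ A = 1/2` -/
def KLSHalf {n : ℕ} (c : ℝ) (K : Set (Euc n)) : Prop :=
  ∀ t : ℝ≥0∞, (∀ (u : Euc n) (b : ℝ), u ≠ 0 →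
      t * min (unif K (halfspace u b)) (1 - unif K (halfspace u b)) ≤
        bdry (unif K) (halfspace u b)) →
    ∀ A : Set (Euc n), MeasurableSet A → unif K A = 1 / 2 →
      ENNReal.ofReal c * t * min (unif K A) (1 - unif K A) ≤ bdry (unif K) A

theorem base_of {B q : ℕ} {p : ℝ} {m : ℕ} {K : Set (Euc m)} (h : Section B q p K) :
    Pool.Agent.Y506.PV.Base q B p K := by
  refine ⟨h.bdd, h.int, ?_⟩
  rcases h.rep with h | h | h | h
  · obtain ⟨N, v, I, hN, hI1, hI2, hK⟩ := h
    exact Or.inl ⟨N, hN, v, I, hI1, hI2, hK⟩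
  · obtain ⟨N, v, a, b, hN, hK⟩ := h
    exact Or.inr (Or.inl ⟨N, hN, v, a, b, hK⟩)
  · obtain ⟨M, k, e, l, hk, hs, he, hK⟩ := h
    refine Or.inr (Or.inr (Or.inl ⟨M, k, hs, hk, e, fun i j =>
      LinearMap.toContinuousLinearMap (l i j), he, ?_⟩))
    rw [hK]
    rfl
  · obtain ⟨M, k, Q, D, hk, hs, hD, hK⟩ := h
    refine Or.inr (Or.inr (Or.inr ⟨M, k, hs, hk, fun i => LinearMap.toContinuousLinearMap (Q i),
      D, fun i => ⟨(hD i).comp.measurableSet, (hD i).conv, (hD i).comp.isBounded, (hD i).symm,
        (hD i).int⟩, fun i => (hD i).comp.isClosed, ?_⟩))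
    rw [hK]
    rfl

/-- the functional inequality for affine images -/
theorem star_of {c : ℝ} {B q r : ℕ} {p : ℝ} (H : ∀ (n m : ℕ) (K : Set (Euc m))
    (A : Euc m →ₗ[ℝ] Euc n), 1 ≤ n → m ≤ n + r → Pool.Agent.Y506.PV.Base q B p K →
    Function.Surjective A → IsCompact (A '' K) ∧ Convex ℝ (A '' K) ∧ (interior (A '' K)).Nonempty ∧
    Pool.Agent.Y506.RG.Star c (Pool.Agent.Y506.PV.ind (A '' K))) {m n : ℕ} {K : Set (Euc m)}
    (T : Euc m →ᵃ[ℝ] Euc n) (hn : 1 ≤ n) (hm : m ≤ n + r) (hK : Section B q p K)
    (hT : Function.Surjective T) : IsCompact (T '' K) ∧ Convex ℝ (T '' K) ∧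
    (interior (T '' K)).Nonempty ∧
    Pool.Agent.Y506.RG.Star c (Pool.Agent.Y506.PV.ind (T '' K)) := by
  have hTL : ∀ x, T x = T.linear x + T 0 := fun x => by
    have h := T.map_vadd 0 x
    simpa [vadd_eq_add] using h
  have hA : Function.Surjective T.linear := by
    intro y
    obtain ⟨x, hx⟩ := hT (y + T 0)
    refine ⟨x, ?_⟩
    have h := hTL x
    rw [hx] at h
    exact (add_right_cancel h).symm
  obtain ⟨h1, h2, h3, h4⟩ := H n m K T.linear hn hm (base_of hK) hA
  have he : T '' K = (fun y => y + T 0) '' (T.linear '' K) := by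
    rw [image_image]
    exact image_congr fun x _ => hTL x
  have hcp : IsCompact (T '' K) := by
    rw [he]
    exact h1.image (by fun_prop)
  refine ⟨hcp, ?_, ?_, ?_⟩
  · rw [he]
    have h := h2.translate (T 0)
    have e : (fun y => y + T 0) = fun y => T 0 + y := funext fun y => add_comm _ _
    rw [e]
    exact h
  · rw [he]
    have hop : IsOpen ((fun y => y + T 0) '' interior (T.linear '' K)) :=
      (Homeomorph.addRight (T 0)).isOpenMap _ isOpen_interior
    exact (h3.image _).mono (interior_maximal (image_mono interior_subset) hop)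
  · rw [he]
    exact Pool.Agent.Y506.PV.star_trans _ _ (Pool.Agent.Y506.PV.adm_ind _ h1.measurableSet
      h1.isBounded (Pool.Agent.Y506.PV.vol_pos h3)) h4

/-- **KLS (Cheeger form) for projections of sections.** For all `q, r, B` and `p ≥ 1` there is a
constant `c > 0` such that for all `n ≥ 1` and all affine maps `T` of `ℝ^m` onto `ℝⁿ`, `m ≤ n + r`, and
all bodies `K ⊂ ℝ^m` of the class `Section B q p`, the body `T '' K` satisfies the inequality of Kannan,
Lovasz and Simonovits with constant `c` for all sets of measure one half. -/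
theorem result : ∀ (q r B : ℕ) (p : ℝ), 1 ≤ p → ∃ c : ℝ, 0 < c ∧
    ∀ (m n : ℕ) (K : Set (Euc m)) (T : Euc m →ᵃ[ℝ] Euc n), 1 ≤ n → m ≤ n + r →
    Section B q p K → Function.Surjective T → KLSHalf c (T '' K) := by
  intro q r B p hp
  obtain ⟨c, hc, H⟩ := Pool.Agent.Y506.PV.fin_img q r B p hp
  obtain ⟨c', hc', H'⟩ := Pool.Agent.Y532.PV.che c hc
  refine ⟨c', hc', fun m n K T hn hm hK hT => ?_⟩
  obtain ⟨h1, h2, h3, h4⟩ := star_of H T hn hm hK hT
  intro t ht A hA hA2
  have hprob : IsProbabilityMeasure (unif (T '' K)) :=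
    Pool.Agent.Y506.KS.unif_prob (Pool.Agent.Y506.PV.vol_pos h3) h1.measure_lt_top.ne
  have key := H' n _ h1 h2 h3 h4 (unif (T '' K)) rfl t ht A hA2
  refine le_trans ?_ key
  calc ENNReal.ofReal c' * t * min (unif (T '' K) A) (1 - unif (T '' K) A)
      ≤ ENNReal.ofReal c' * t * 1 := mul_le_mul_right ((min_le_left _ _).trans prob_le_one) _
    _ = _ := mul_one _

/-- The case of polytopes with at most `n + q` vertices. -/
theorem few_vertices : ∀ q : ℕ, ∃ c : ℝ, 0 < c ∧ ∀ (n N : ℕ) (x : Fin N → Euc n), 1 ≤ n →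
    N ≤ n + q → (interior (convexHull ℝ (range x))).Nonempty →
    KLSHalf c (convexHull ℝ (range x)) := by
  intro q
  obtain ⟨c, hc, H⟩ := result 1 q 0 1 le_rfl
  refine ⟨c, hc, fun n N x hn hN hint => ?_⟩
  rcases N with _ | M
  · exfalso
    rw [range_eq_empty x, convexHull_empty, interior_empty] at hint
    exact not_nonempty_empty hint
  obtain ⟨A, v, I, hA, hI1, hI2, hb, hi, he⟩ := Pool.Agent.Y179.PV.vert n M x hint
  have h := H M n _ (A.toAffineMap + AffineMap.const ℝ (Euc M) (x 0)) hn (by omega)
    ⟨hb, hi, Or.inl ⟨M + 1, v, I, le_rfl, hI1, hI2, rfl⟩⟩ (fun y => by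
      obtain ⟨z, hz⟩ := hA (y - x 0)
      exact ⟨z, by simp [hz]⟩)
  have e : ((A.toAffineMap + AffineMap.const ℝ (Euc M) (x 0) : Euc M →ᵃ[ℝ] Euc n) : Euc M → Euc n) =
      fun y => A y + x 0 := by
    funext y
    simp
  rw [e, ← he] at h
  exact h

/-- The case of symmetric polytopes with at most `2 (n + q)` vertices. -/
theorem few_vertices_symmetric : ∀ q : ℕ, ∃ c : ℝ, 0 < c ∧ ∀ (n N : ℕ) (x : Fin N → Euc n), 1 ≤ n →
    N ≤ n + q → (interior (convexHull ℝ (range x ∪ range fun i => -x i))).Nonempty →
    KLSHalf c (convexHull ℝ (range x ∪ range fun i => -x i)) := by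
  intro q
  obtain ⟨c, hc, H⟩ := result 0 q 0 1 le_rfl
  refine ⟨c, hc, fun n N x hn hN hint => ?_⟩
  obtain ⟨A, v, a, b, hA, hb, hi, he⟩ := Pool.Agent.Y179.PV.verts n N x hint
  have h := H N n _ A.toAffineMap hn hN ⟨hb, hi, Or.inr (Or.inl ⟨N, v, a, b, le_rfl, rfl⟩)⟩ hA
  rw [he]
  exact h

/-- The case of polytopes of extension complexity at most `n + q`: images of polytopes with at most
`n + q` facets, in any dimension. -/
theorem extended : ∀ q : ℕ, ∃ c : ℝ, 0 < c ∧ ∀ (m n N : ℕ) (v : Fin N → Euc m) (b : Fin N → ℝ)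
    (T : Euc m →ᵃ[ℝ] Euc n), 1 ≤ n → N ≤ n + q →
    Bornology.IsBounded {x : Euc m | ∀ i, ⟪v i, x⟫_ℝ ≤ b i} →
    (interior {x : Euc m | ∀ i, ⟪v i, x⟫_ℝ ≤ b i}).Nonempty → Function.Surjective T →
    KLSHalf c (T '' {x : Euc m | ∀ i, ⟪v i, x⟫_ℝ ≤ b i}) := by
  intro q
  obtain ⟨c, hc, H⟩ := result q q 0 1 le_rfl
  refine ⟨c, hc, fun m n N v b T hn hN hb hi hT => ?_⟩
  have hnm : n ≤ m := by
    have hl : Function.Surjective T.linear := by
      rwa [AffineMap.linear_surjective_iff]
    have := LinearMap.finrank_le_finrank_of_surjective (f := T.linear) hl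
    simpa using this
  have hmN : m ≤ N := by
    by_contra hlt
    rw [not_le] at hlt
    obtain ⟨z, hz, hz0⟩ : ∃ z : Euc m, (∀ i, ⟪v i, z⟫_ℝ = 0) ∧ z ≠ 0 := by
      have hr : Module.finrank ℝ (Fin N → ℝ) < Module.finrank ℝ (Euc m) := by simpa using hlt
      let L : Euc m →ₗ[ℝ] (Fin N → ℝ) :=
        { toFun := fun x i => ⟪v i, x⟫_ℝ
          map_add' := fun x y => by ext; simp [inner_add_right]
          map_smul' := fun c x => by ext; simp [real_inner_smul_right] }
      obtain ⟨z, hz, hz0⟩ := (Submodule.ne_bot_iff _).1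
        (LinearMap.ker_ne_bot_of_finrank_lt (f := L) hr)
      exact ⟨z, fun i => congrFun (LinearMap.mem_ker.1 hz) i, hz0⟩
    obtain ⟨x0, hx0⟩ := hi
    refine hz0 (Pool.Agent.Y506.PV.ker_triv hb x0 z fun c i => ?_)
    rw [inner_add_right, real_inner_smul_right, hz i, mul_zero, add_zero]
    exact interior_subset hx0 i
  exact H m n _ T hn (by omega) ⟨hb, hi, Or.inl ⟨N, v, fun i => Iic (b i), by omega,
    fun i => isClosed_Iic, fun i => ordConnected_Iic, rfl⟩⟩ hT

end Pool.Agent.Results.MP_8d00da_gt.ImagesOfSections
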