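import Pool.Agent.Y506.KS.Ph

/-!
# The KLS conjecture in Cheeger form for sections of products of generalised `ℓ_p` balls, `p ≥ 2`

Q1 for all convex bodies `K = {x ∈ ℝⁿ : ∑_j |ℓ_ij(x)|^{p_ij} ≤ 1 for all i < N}` with linear
functionals `ℓ_ij`, `i < N`, `j < m_i`, real exponents `p_ij ≥ 2` (all of them may be different) and
`∑ m_i ≤ n + q`, where the `m_i` and their number are arbitrary: the central sections of codimension at
most `q` of linear images of products of generalised `ℓ_p` balls `{s ∈ ℝ^m : ∑ |s_j|^{p_j} ≤ 1}` of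
arbitrary dimensions. The constant is `c / (1 + q)²`. Examples: the central sections of codimension `q`
of `ℓ_p` balls, `p ≥ 2`, and of their products; any of these bodies cut by `q` symmetric slabs; with
`p_ij = 2` all intersections of ellipsoidal cylinders of total dimension `n + q`; with `m_i = 1` all
symmetric polytopes with `2 (n + q)` facets. Minkowski boundary measure, all measurable sets.

Method. After a linear change of variables `ℝⁿ` is the orthogonal complement of a `q`-dimensional
subspace of `∏ ℝ^{m_i}`, and the posteriors of the Gaussian channel with input uniform on `K` are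
sections of products of Gaussian tilts of the bodies `B = {s ∈ ℝ^m : G(s) ≤ 1}`,
`G(s) = (1/M) ∑ |s_j|^{p_j}`, `M = ∑ 1/p_j`. New here is a bound for the covariance of all tilts
`exp(⟪a, s⟫ - b |s|²)` of `B` by an absolute constant, for all `m`, `p_j`, `a`, `b`. The tilted body is
the section `t = 1` of the log-concave density `exp(- α t + ⟪a, s⟫ - b |s|²)` on `{(s, t) : G(s) ≤ t}`,
whose marginal in `s` is a product of one-dimensional densities. With `α` the logarithmic growth at
`t = 1` of the tilted volume of `{G ≤ t}` the section goes through a mode of `t`, hence its covariance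
is at most a constant times the one of the product; coordinatewise dilations give `α ≥ M / 4` if
`b ≤ 1/8`; and the variances of the one-dimensional tilts of `exp(- |s|^p / 4)` are bounded by means of
the density of `(X - Y) / 2` given `X + Y`, which does not depend on `a`. For `b ≥ 1/8` the
Brascamp-Lieb inequality is enough. The rest is as in `SectionsOfProductsCheeger`: sections and
products are compared by the Prekopa-Leindler inequality, and the Cheeger inequality follows from the
Poincare inequality with constant `C (1 + q)⁴` times the largest variance of `K`.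
-/

set_option autoImplicit false

namespace Pool.Agent.Results.MP_8d00da_gt.PowerSums

open MeasureTheory Set
open scoped ENNReal InnerProductSpace

/-- Euclidean space of dimension `n` -/
abbrev Euc (n : ℕ) : Type := EuclideanSpace ℝ (Fin n)

/-- `{x | ∑_j |ℓ_ij x| ^ p_ij ≤ 1 for all i}` -/
def powerBody {n N : ℕ} {m : Fin N → ℕ} (p : ∀ i, Fin (m i) → ℝ)
    (ell : ∀ i, Fin (m i) → (Euc n →ₗ[ℝ] ℝ)) : Set (Euc n) :=
  {x | ∀ i, ∑ j, |ell i j x| ^ p i j ≤ 1}

/-- Minkowski (exterior) boundary measure `μ⁺(A)` -/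
noncomputable def bdry {n : ℕ} (μ : Measure (Euc n)) (A : Set (Euc n)) : ℝ≥0∞ :=
  Filter.liminf (fun ε : ℝ => (μ (Metric.thickening ε A) - μ A) / ENNReal.ofReal ε)
    (nhdsWithin 0 (Set.Ioi 0))

/-- the halfspace `⟪u, x⟫ ≤ b` -/
def halfspace {n : ℕ} (u : Euc n) (b : ℝ) : Set (Euc n) := {x | inner ℝ u x ≤ b}

/-- the uniform probability measure on `K` -/
noncomputable def unif {n : ℕ} (K : Set (Euc n)) : Measure (Euc n) :=
  (volume K)⁻¹ • volume.restrict K

/-- the inequality of Kannan, Lovasz and Simonovits with constant `c` for the uniform measure `μ` on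
`K`: if `t min(μ H, 1 - μ H) ≤ μ⁺(H)` for all halfspaces `H` then `c t min(μ A, 1 - μ A) ≤ μ⁺(A)` for
all measurable `A`; that is, `D_Che(μ) ≥ c D_Che^Lin(μ)`. -/
def KLSBound {n : ℕ} (c : ℝ) (K : Set (Euc n)) : Prop :=
  ∀ t : ℝ≥0∞, (∀ (u : Euc n) (b : ℝ), u ≠ 0 →
      t * min (unif K (halfspace u b)) (1 - unif K (halfspace u b)) ≤
        bdry (unif K) (halfspace u b)) →
    ∀ A : Set (Euc n), MeasurableSet A →
      ENNReal.ofReal c * t * min (unif K A) (1 - unif K A) ≤ bdry (unif K) A

/-- **KLS (Cheeger form) for sections of products of generalised `ℓ_p` balls, `p ≥ 2`.** There is an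
absolute constant `c > 0` such that for all `n ≥ 1`, `q ≥ 0`, all `N`, all `m_i ≥ 1` with
`∑ m_i ≤ n + q`, all real exponents `p_ij ≥ 2` and all linear functionals `ℓ_ij` on `ℝⁿ`, `i < N`,
`j < m_i`, for which `K = {x | ∑_j |ℓ_ij(x)|^{p_ij} ≤ 1 for all i}` is bounded:
`D_Che(λ_K) ≥ c / (1 + q)² D_Che^Lin(λ_K)`. -/
theorem result : ∃ c : ℝ, 0 < c ∧ ∀ (n q N : ℕ) (m : Fin N → ℕ) (p : ∀ i, Fin (m i) → ℝ)
    (ell : ∀ i, Fin (m i) → (Euc n →ₗ[ℝ] ℝ)), 1 ≤ n → (∀ i, 1 ≤ m i) → ∑ i, m i ≤ n + q →
    (∀ i j, 2 ≤ p i j) → Bornology.IsBounded (powerBody p ell) →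
    KLSBound (c / (1 + q) ^ 2) (powerBody p ell) := by
  obtain ⟨c, hc, H⟩ := Pool.Agent.Y506.KS.cheegerP
  refine ⟨c / (4 * Real.sqrt 116486307840), by positivity, ?_⟩
  intro n q N m p ell hn hm hsum hp hbd
  have hne' : Nonempty (Fin n) := ⟨⟨0, hn⟩⟩
  let L : ∀ i, Fin (m i) → (Euc n →L[ℝ] ℝ) := fun i j => LinearMap.toContinuousLinearMap (ell i j)
  obtain ⟨K, hK⟩ : ∃ K : Set (Euc n), K = powerBody p ell := ⟨_, rfl⟩
  have hmemK : ∀ x, x ∈ K ↔ ∀ i, Pool.Agent.Y506.KS.PS (p i) (L i) x ≤ 1 := fun x => by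
    rw [hK]
    rfl
  rw [← hK] at hbd ⊢
  have hker : ∀ x, (∀ i j, L i j x = 0) → x = 0 := by
    intro x hx
    refine Pool.Agent.Y506.KS.ker_triv hbd fun c => ?_
    rw [hmemK]
    intro i
    rw [Pool.Agent.Y506.KS.PS_zero (hp i) (L i) (fun j => by rw [map_smul, hx i j, smul_zero])]
    exact zero_le_one
  have hconv : Convex ℝ K := by
    intro x hx y hy s t hs ht hst
    rw [hmemK] at hx hy ⊢
    intro i
    refine (Pool.Agent.Y506.KS.PS_conv (hp i) (L i) x y s t hs ht hst).trans ?_
    calc s * Pool.Agent.Y506.KS.PS (p i) (L i) x + t * Pool.Agent.Y506.KS.PS (p i) (L i) y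
        ≤ s * 1 + t * 1 :=
          add_le_add (mul_le_mul_of_nonneg_left (hx i) hs) (mul_le_mul_of_nonneg_left (hy i) ht)
      _ = 1 := by rw [mul_one, mul_one, hst]
  have hclosed : IsClosed K := by
    have e : K = ⋂ i, {x | Pool.Agent.Y506.KS.PS (p i) (L i) x ≤ 1} := by
      ext x
      rw [hmemK]
      simp
    rw [e]
    exact isClosed_iInter fun i =>
      isClosed_le (Pool.Agent.Y506.KS.PS_cont (hp i) (L i)) continuous_const
  have hint : (interior K).Nonempty := by
    refine ⟨0, mem_interior.2 ⟨⋂ i, {x | Pool.Agent.Y506.KS.PS (p i) (L i) x < 1}, ?_, ?_, ?_⟩⟩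
    · intro x hx
      rw [hmemK]
      intro i
      have := mem_iInter.1 hx i
      exact le_of_lt this
    · exact isOpen_iInter_of_finite fun i =>
        isOpen_lt (Pool.Agent.Y506.KS.PS_cont (hp i) (L i)) continuous_const
    · refine mem_iInter.2 fun i => ?_
      change Pool.Agent.Y506.KS.PS (p i) (L i) 0 < 1
      rw [Pool.Agent.Y506.KS.PS_zero (hp i) (L i) (fun j => map_zero _)]
      exact zero_lt_one
  have hsym : ∀ x ∈ K, -x ∈ K := by
    intro x hx
    rw [hmemK] at hx ⊢
    intro i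
    rw [Pool.Agent.Y506.KS.PS_neg]
    exact hx i
  have hP : Pool.Agent.Y506.KS.PoK K (Pool.Agent.Y506.KS.CP q) := by
    have h1 := Pool.Agent.Y506.KS.pow_PoK Pool.Agent.Y506.KS.ij_closed
      (fun i => Nat.lt_of_lt_of_le Nat.zero_lt_one (hm i)) hp hker q (by simpa using hsum)
    have e : K = {x | ∀ i, (fun t : ℝ => if t ≤ 1 then (1 : ℝ) else 0)
        (∑ j, |L i j x| ^ p i j) = 1} := by
      ext x
      rw [hmemK]
      refine forall_congr' fun i => ?_
      unfold Pool.Agent.Y506.KS.PS
      by_cases h3 : ∑ j, |L i j x| ^ p i j ≤ 1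
      · simp [h3]
      · simp [h3]
    rw [e]
    exact h1
  have hcomp : IsCompact K := Metric.isCompact_of_isClosed_isBounded hclosed hbd
  have key := H (Fin n) K hconv hcomp hint hsym (Pool.Agent.Y506.KS.CP q)
    (Pool.Agent.Y506.KS.CP_pos q) hP
  intro t ht A hA
  have h1 : ENNReal.ofReal (c / Real.sqrt (Pool.Agent.Y506.KS.CP q)) * t *
      min (unif K A) (1 - unif K A) ≤ bdry (unif K) A := key (unif K) rfl t ht A hA
  refine le_trans ?_ h1
  have h2 : c / (4 * Real.sqrt 116486307840) / (1 + q) ^ 2 ≤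
      c / Real.sqrt (Pool.Agent.Y506.KS.CP q) := by
    rw [div_div]
    exact div_le_div_of_nonneg_left hc.le (Real.sqrt_pos.2 (Pool.Agent.Y506.KS.CP_pos q))
      (Pool.Agent.Y506.KS.sqrt_CP_le q)
  gcongr

end Pool.Agent.Results.MP_8d00da_gt.PowerSums
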