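import Pool.Agent.Y506.KS.Bq

/-!
# The KLS conjecture in Cheeger form for sections of products of low dimensional symmetric bodies

Q1 for all symmetric convex bodies `K ⊂ ℝⁿ` which are sections, of codimension at most `q`, of products
of symmetric convex bodies of dimension at most `m`: `K = {x | Q_i x ∈ D_i for all i}` with linear maps
`Q_i : ℝⁿ → ℝ^{m_i}`, symmetric convex bodies `D_i ⊂ ℝ^{m_i}`, `m_i ≤ m` and `∑ m_i ≤ n + q`. The
constant is `c / ((1 + m) (1 + q)²)`. The case `m = 1` consists of the symmetric polytopes given by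
`n + q` inequalities `|⟪a_i, x⟫| ≤ 1` (theorem `polytope`): KLS holds with an absolute constant for the
symmetric polytopes with at most `2 (n + q)` facets, `q` fixed. Minkowski boundary measure, all
measurable sets.

Method. After a linear change of variables `ℝⁿ` is the orthogonal complement of a `q`-dimensional
subspace `F` of `∏ ℝ^{m_i}`. The posteriors of the Gaussian channel with input uniform on `K` are
sections of product measures. The covariance of such a section is at most `C (1 + q)²` times the largest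
variance of a factor: the product measure is tilted by an exponential of a linear function on `F` such
that the section through `0` becomes the heaviest one, and the covariances of the sections are
compared by the Prekopa-Leindler inequality for an exponent `1 - 1/(q+2)`. If all posterior
covariances at noise level `h` are at most `h / 4` then the Poincare constant is at most `2 h`. For
the symmetric measure itself the covariance of the section is also bounded below, through the
supergradient of the logarithm of the Laplace transforms of the sections. Together: Poincare inequality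
with constant `C (1 + m)² (1 + q)⁴` times the largest variance of `K`. The Cheeger inequality follows
from the implication from Poincare to Cheeger inequalities of the starting files (modules `KH`).
-/

set_option autoImplicit false

namespace Pool.Agent.Results.MP_8d00da_gt.SectionsOfProductsCheeger

open MeasureTheory Set
open scoped ENNReal InnerProductSpace

/-- Euclidean space of dimension `n` -/
abbrev Euc (n : ℕ) : Type := EuclideanSpace ℝ (Fin n)

/-- convex body: compact, convex, with nonempty interior -/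
structure ConvexBody {n : ℕ} (K : Set (Euc n)) : Prop where
  conv : Convex ℝ K
  comp : IsCompact K
  int : (interior K).Nonempty

/-- convex body with `D = -D` -/
structure SymmetricBody {n : ℕ} (D : Set (Euc n)) : Prop where
  body : ConvexBody D
  symm : ∀ x ∈ D, -x ∈ D

/-- `K` is bounded and `K = {x | Q_i x ∈ D_i for all i}` with linear maps `Q_i` from `ℝⁿ` to `ℝ^{m_i}`
and symmetric convex bodies `D_i ⊂ ℝ^{m_i}`, where `m_i ≤ m` and `∑ m_i ≤ n + q`. -/
structure SectionOfProduct {n : ℕ} (m q : ℕ) (K : Set (Euc n)) : Prop where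
  bdd : Bornology.IsBounded K
  rep : ∃ (N : ℕ) (d : Fin N → ℕ) (Q : ∀ i, Euc n →ₗ[ℝ] Euc (d i)) (D : ∀ i, Set (Euc (d i))),
    (∀ i, d i ≤ m) ∧ ∑ i, d i ≤ n + q ∧ (∀ i, SymmetricBody (D i)) ∧ K = {x | ∀ i, Q i x ∈ D i}

/-- Minkowski (exterior) boundary measure `μ⁺(A)` -/
noncomputable def bdry {n : ℕ} (μ : Measure (Euc n)) (A : Set (Euc n)) : ℝ≥0∞ :=
  Filter.liminf (fun ε : ℝ => (μ (Metric.thickening ε A) - μ A) / ENNReal.ofReal ε)
    (nhdsWithin 0 (Set.Ioi 0))

/-- the halfspace `⟪u, x⟫ ≤ b` -/
def halfspace {n : ℕ} (u : Euc n) (b : ℝ) : Set (Euc n) := {x | inner ℝ u x ≤ b}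

/-- the uniform probability measure on `K` -/
noncomputable def unif {n : ℕ} (K : Set (Euc n)) : Measure (Euc n) :=
  (volume K)⁻¹ • volume.restrict K

/-- the inequality of Kannan, Lovasz and Simonovits with constant `c` for the uniform measure `μ` on
`K`: if `t min(μ H, 1 - μ H) ≤ μ⁺(H)` for all halfspaces `H` then `c t min(μ A, 1 - μ A) ≤ μ⁺(A)` for
all measurable `A`; that is, `D_Che(μ) ≥ c D_Che^Lin(μ)`. -/
def KLSBound {n : ℕ} (c : ℝ) (K : Set (Euc n)) : Prop :=
  ∀ t : ℝ≥0∞, (∀ (u : Euc n) (b : ℝ), u ≠ 0 →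
      t * min (unif K (halfspace u b)) (1 - unif K (halfspace u b)) ≤
        bdry (unif K) (halfspace u b)) →
    ∀ A : Set (Euc n), MeasurableSet A →
      ENNReal.ofReal c * t * min (unif K A) (1 - unif K A) ≤ bdry (unif K) A

/-- the bounded sets given by `n + q` inequalities `|⟪a_i, x⟫| ≤ 1` (symmetric polytopes with at most
`2 (n + q)` facets) belong to the class, with `m = 1` -/
theorem polytope {n q : ℕ} (a : Fin (n + q) → Euc n)
    (h : Bornology.IsBounded {x : Euc n | ∀ i, |⟪a i, x⟫_ℝ| ≤ 1}) :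
    SectionOfProduct 1 q {x : Euc n | ∀ i, |⟪a i, x⟫_ℝ| ≤ 1} := by
  refine ⟨h, n + q, fun _ => 1, fun i =>
    { toFun := fun x => WithLp.toLp 2 fun _ => ⟪a i, x⟫_ℝ
      map_add' := fun x y => by ext; simp [inner_add_right]
      map_smul' := fun c x => by ext; simp [real_inner_smul_right] },
    fun _ => {y | ∀ j, |y j| ≤ 1}, fun _ => le_rfl, by simp, fun i => ?_, ?_⟩
  · refine ⟨⟨?_, ?_, ?_⟩, fun y hy j => ?_⟩
    · intro x hx y hy s t hs ht hst j
      have h1 : (s • x + t • y) j = s * x j + t * y j := rfl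
      rw [h1]
      calc |s * x j + t * y j| ≤ |s * x j| + |t * y j| := abs_add_le _ _
        _ = s * |x j| + t * |y j| := by rw [abs_mul, abs_mul, abs_of_nonneg hs, abs_of_nonneg ht]
        _ ≤ s * 1 + t * 1 := add_le_add (mul_le_mul_of_nonneg_left (hx j) hs)
            (mul_le_mul_of_nonneg_left (hy j) ht)
        _ = 1 := by rw [mul_one, mul_one, hst]
    · refine Metric.isCompact_of_isClosed_isBounded ?_ ?_
      · have : {y : Euc 1 | ∀ j, |y j| ≤ 1} = ⋂ j, {y : Euc 1 | |y j| ≤ 1} := by ext y; simp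
        change IsClosed {y : Euc 1 | ∀ j, |y j| ≤ 1}
        rw [this]
        refine isClosed_iInter fun j => isClosed_le ?_ continuous_const
        fun_prop
      · refine (Metric.isBounded_closedBall (x := (0 : Euc 1)) (r := 1)).subset fun y hy => ?_
        rw [mem_closedBall_zero_iff, EuclideanSpace.norm_eq, Fin.sum_univ_one, Real.sqrt_sq_eq_abs,
          Real.norm_eq_abs, abs_abs]
        exact hy 0
    · refine ⟨0, mem_interior.2 ⟨Metric.ball 0 1, fun y hy j => ?_, Metric.isOpen_ball, by simp⟩⟩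
      have h1 : ‖y j‖ ≤ ‖y‖ := PiLp.norm_apply_le y j
      rw [mem_ball_zero_iff] at hy
      rw [← Real.norm_eq_abs]
      linarith
    · have h1 : (-y) j = -(y j) := rfl
      rw [h1, abs_neg]
      exact hy j
  · ext x
    simp

/-- **KLS (Cheeger form) for sections of products of low dimensional symmetric convex bodies.** There
is an absolute constant `c > 0` such that for all `n ≥ 1` and all `m, q ≥ 0`, every convex body
`K ⊂ ℝⁿ` of the form `K = {x | Q_i x ∈ D_i for all i}`, with linear maps `Q_i : ℝⁿ → ℝ^{m_i}` and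
symmetric convex bodies `D_i ⊂ ℝ^{m_i}`, `m_i ≤ m`, `∑ m_i ≤ n + q`, satisfies
`D_Che(λ_K) ≥ c / ((1 + m) (1 + q)²) D_Che^Lin(λ_K)`. -/
theorem result : ∃ c : ℝ, 0 < c ∧ ∀ n m q : ℕ, 1 ≤ n → ∀ K : Set (Euc n), ConvexBody K →
    SectionOfProduct m q K → KLSBound (c / ((1 + m) * (1 + q) ^ 2)) K := by
  obtain ⟨c, hc, H⟩ := Pool.Agent.Y506.KS.cheegerP
  refine ⟨c / (4 * Real.sqrt 5505024), by positivity, ?_⟩
  intro n m q hn K hK hS
  obtain ⟨hbd, N, d, Q, D, hd, hsum, hD, hrep⟩ := hS
  have hne' : Nonempty (Fin n) := ⟨⟨0, hn⟩⟩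
  have hSB : ∀ i, Pool.Agent.Y506.KS.SB (D i) := fun i =>
    ⟨(hD i).body.comp.isClosed.measurableSet, (hD i).body.conv, (hD i).body.comp.isBounded,
      (hD i).symm, (hD i).body.int⟩
  let Q' : ∀ i, Euc n →L[ℝ] Euc (d i) := fun i => LinearMap.toContinuousLinearMap (Q i)
  have hKK : K = Pool.Agent.Y506.KS.KK Q' D := by
    rw [hrep]
    rfl
  have hQ : ∀ x, (∀ i, Q' i x = 0) → x = 0 := by
    intro x hx
    by_contra hne
    obtain ⟨R, hR⟩ := hbd.exists_norm_le
    have hxn : 0 < ‖x‖ := norm_pos_iff.2 hne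
    have h0 : ∀ i, (0 : Euc (d i)) ∈ D i := fun i => by
      obtain ⟨r, hr, hb⟩ := (hSB i).ball
      exact hb (by simpa using hr)
    have hmem : ((|R| + 1) / ‖x‖) • x ∈ K := by
      rw [hKK]
      intro i
      rw [map_smul, hx i, smul_zero]
      exact h0 i
    have h1 := hR _ hmem
    rw [norm_smul, Real.norm_of_nonneg (by positivity), div_mul_cancel₀ _ hxn.ne'] at h1
    linarith [le_abs_self R]
  have hP : Pool.Agent.Y506.KS.PoK K (Pool.Agent.Y506.KS.CB m q) := by
    rw [hKK]
    exact Pool.Agent.Y506.KS.KK_PoK hQ hSB m hd q (by simpa using hsum)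
  have hsym : ∀ x ∈ K, -x ∈ K := by
    intro x hx
    rw [hKK] at hx ⊢
    intro i
    rw [map_neg]
    exact (hD i).symm _ (hx i)
  have key := H (Fin n) K hK.conv hK.comp hK.int hsym (Pool.Agent.Y506.KS.CB m q)
    (Pool.Agent.Y506.KS.CB_pos m q) hP
  intro t ht A hA
  have h1 : ENNReal.ofReal (c / Real.sqrt (Pool.Agent.Y506.KS.CB m q)) * t *
      min (unif K A) (1 - unif K A) ≤ bdry (unif K) A := key (unif K) rfl t ht A hA
  refine le_trans ?_ h1
  have h2 : c / (4 * Real.sqrt 5505024) / ((1 + m) * (1 + q) ^ 2) ≤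
      c / Real.sqrt (Pool.Agent.Y506.KS.CB m q) := by
    have h3 : Real.sqrt (Pool.Agent.Y506.KS.CB m q) =
        Real.sqrt 5505024 * (((m : ℝ) + 1) * ((q : ℝ) + 2) ^ 2) := by
      unfold Pool.Agent.Y506.KS.CB
      have e : (5505024 : ℝ) * ((m : ℝ) + 1) ^ 2 * ((q : ℝ) + 2) ^ 4 =
          5505024 * (((m : ℝ) + 1) * ((q : ℝ) + 2) ^ 2) ^ 2 := by ring
      rw [e, Real.sqrt_mul (by norm_num), Real.sqrt_sq (by positivity)]
    rw [h3, div_div]
    refine div_le_div_of_nonneg_left hc.le (by positivity) ?_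
    have h4 : ((q : ℝ) + 2) ^ 2 ≤ 4 * (1 + q) ^ 2 := by
      have : (0 : ℝ) ≤ q := Nat.cast_nonneg q
      nlinarith
    calc Real.sqrt 5505024 * (((m : ℝ) + 1) * ((q : ℝ) + 2) ^ 2)
        ≤ Real.sqrt 5505024 * (((m : ℝ) + 1) * (4 * (1 + q) ^ 2)) := by gcongr
      _ = _ := by ring
  gcongr

end Pool.Agent.Results.MP_8d00da_gt.SectionsOfProductsCheeger
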